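import Pool.Agent.V5helper19.QC.Stm

/-!
# Project QC, job H3A: bound for `x ^ 3 e2 x` on a sector
-/

set_option autoImplicit false

namespace V5helper3.QC

open V5helper19.QC

theorem t_H3A : S_H3A := by
  refine ⟨27648, by norm_num, ?_⟩
  intro x hx him
  set a : ℝ := x.re with ha
  have hn : ‖Complex.exp x‖ = Real.exp a := Complex.norm_exp x
  have hea : a + 1 ≤ Real.exp a := Real.add_one_le_exp a
  have he0 : 0 < Real.exp a := Real.exp_pos a
  have hx2 : ‖x‖ ≤ 2 * a := by
    have h1 := Complex.norm_le_abs_re_add_abs_im x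
    have h2 : |x.re| = a := abs_of_pos hx
    rw [h2] at h1
    linarith
  have hx3 : ‖x‖ ^ 3 ≤ (2 * a) ^ 3 := pow_le_pow_left₀ (norm_nonneg _) hx2 3
  have hm : Real.exp a - 1 ≤ ‖Complex.exp x - 1‖ := by
    have h1 := norm_sub_norm_le (Complex.exp x) 1
    rw [hn, norm_one] at h1
    exact h1
  have hp : ‖Complex.exp x + 1‖ ≤ Real.exp a + 1 := by
    have h1 := norm_add_le (Complex.exp x) 1
    rw [hn, norm_one] at h1
    exact h1
  have hpos : 0 < Real.exp a - 1 := by linarith
  have hm3 : (Real.exp a - 1) ^ 3 ≤ ‖Complex.exp x - 1‖ ^ 3 := pow_le_pow_left₀ hpos.le hm 3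
  have hmain : ‖x ^ 3 * e2 x‖ ≤
      (2 * a) ^ 3 * (Real.exp a * (Real.exp a + 1) / (Real.exp a - 1) ^ 3) := by
    unfold e2
    rw [norm_mul, norm_pow, norm_div, norm_mul, norm_pow, hn]
    apply mul_le_mul hx3 _ (by positivity) (by positivity)
    apply div_le_div₀ (by positivity) _ (by positivity) hm3
    exact mul_le_mul_of_nonneg_left hp he0.le
  refine hmain.trans ?_
  rcases le_total a 1 with h1 | h1
  · -- small real part
    have h3 : Real.exp a ≤ 3 := by
      have h4 : Real.exp a ≤ Real.exp 1 := Real.exp_le_exp.mpr h1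
      have h5 := Real.exp_one_lt_d9
      linarith
    have h6 : a ^ 3 ≤ (Real.exp a - 1) ^ 3 := pow_le_pow_left₀ hx.le (by linarith) 3
    have h7 : (2 * a) ^ 3 * (Real.exp a * (Real.exp a + 1) / (Real.exp a - 1) ^ 3) ≤
        8 * (Real.exp a * (Real.exp a + 1)) := by
      rw [← mul_div_assoc, div_le_iff₀ (by positivity)]
      have h8 : 0 ≤ Real.exp a * (Real.exp a + 1) := by positivity
      nlinarith [mul_le_mul_of_nonneg_right h6 h8]
    have h9 : Real.exp a * (Real.exp a + 1) ≤ 12 := by nlinarith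
    have h10 : 1 / 2 ≤ Real.exp (-(a / 2)) := by
      have := Real.add_one_le_exp (-(a / 2))
      linarith
    linarith
  · -- large real part
    have h2 : 2 ≤ Real.exp a := by linarith
    have h3 : (Real.exp a / 2) ^ 3 ≤ (Real.exp a - 1) ^ 3 :=
      pow_le_pow_left₀ (by positivity) (by linarith) 3
    have h4 : Real.exp a * (Real.exp a + 1) / (Real.exp a - 1) ^ 3 ≤
        Real.exp a * (2 * Real.exp a) / (Real.exp a / 2) ^ 3 := by
      apply div_le_div₀ (by positivity) _ (by positivity) h3
      apply mul_le_mul_of_nonneg_left _ he0.le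
      linarith
    have h5 : Real.exp a * (2 * Real.exp a) / (Real.exp a / 2) ^ 3 = 16 * (Real.exp a)⁻¹ := by
      field_simp
      norm_num
    have h6 : a ^ 3 ≤ 216 * Real.exp (a / 2) := by
      have h7 : a / 6 ≤ Real.exp (a / 6) := by
        have := Real.add_one_le_exp (a / 6)
        linarith
      have h8 : (a / 6) ^ 3 ≤ Real.exp (a / 6) ^ 3 := pow_le_pow_left₀ (by positivity) h7 3
      have h9 : Real.exp (a / 6) ^ 3 = Real.exp (a / 2) := by
        rw [← Real.exp_nat_mul]
        congr 1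
        push_cast
        ring
      rw [h9] at h8
      have h10 : (a / 6) ^ 3 = a ^ 3 / 216 := by ring
      rw [h10] at h8
      linarith
    have h7 : Real.exp (a / 2) * (Real.exp a)⁻¹ = Real.exp (-(a / 2)) := by
      rw [← Real.exp_neg, ← Real.exp_add]
      congr 1
      ring
    calc (2 * a) ^ 3 * (Real.exp a * (Real.exp a + 1) / (Real.exp a - 1) ^ 3)
        ≤ (2 * a) ^ 3 * (16 * (Real.exp a)⁻¹) :=
          mul_le_mul_of_nonneg_left (h4.trans h5.le) (by positivity)
      _ = 128 * (a ^ 3 * (Real.exp a)⁻¹) := by ring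
      _ ≤ 128 * (216 * Real.exp (a / 2) * (Real.exp a)⁻¹) := by
          apply mul_le_mul_of_nonneg_left _ (by norm_num)
          exact mul_le_mul_of_nonneg_right h6 (by positivity)
      _ = 27648 * Real.exp (-(a / 2)) := by rw [mul_assoc 216, h7]; ring

end V5helper3.QC
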